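import Pool.Agent.Helper45.U4.St3

/-! MODULE EXB of project U4 (MP_a1f43d_co): properties of the multiset `X`. -/

set_option autoImplicit false

open Module Classical
open scoped LinearAlgebra.Projectivization

namespace Pool.Agent.Helper47.U4

open Pool.Agent.Helper45.U4 Pool.Agent.Helper53.PB

theorem EXB_one (h1 : StHNB) (h2 : StRFO) {F V : Type} [Field F] [AddCommGroup V] [Module F V]
    [Finite F] [Finite V] [FiniteDimensional F V] (φ : Form F V) (T : Finset (ℙ F V))
    (X : ℙ F V → ℤ) (hM : Mn φ T) (hX : XX φ T X) (R : ℙ F V) (hR : φ.Sing R.rep) :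
    s4 φ.toPolar (chi T) R = nf φ.toPolar X R + 32 * X R := by
  have hsup : Sup φ.toPolar (fun y => chi T y - X y) :=
    (sup_chi (P := φ.toPolar) fun y hy => hM.block.1 y hy).sub hX.sup
  have htf : ∀ U, φ.toPolar.Gen U → tf (fun y => chi T y - X y) U = 1 := by
    intro U hU
    rw [tf_sub, tf_chi, hX.tt U hU]
    ring
  obtain ⟨U, hU, hle⟩ := Polar.exists_gen_ge (P := φ.toPolar) (span_ts (P := φ.toPolar) hR)
  have hRU : R.rep ∈ U := hle (Submodule.mem_span_singleton_self _)
  obtain ⟨N⟩ := h1 φ 4 hM.hs U hU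
  have h3 := (((h2 φ _ hM.hs hsup).1 U hU N).2.1 R hRU).1
  rw [htf U hU, Finset.sum_eq_zero (fun p _ => by rw [htf _ (N.gen p), sub_self])] at h3
  unfold s4 at h3 ⊢
  rw [nf_sub] at h3
  linarith

theorem hEXB (h1 : StHNB) (h2 : StRFO) (h3 : StLBD) (h4 : StHRS) (h5 : StPSH) (h6 : StMNB)
    (h7 : StTAN) : StEXB := by
  intro F V _ _ _ _ _ _ φ T X hM hX
  have hone := EXB_one h1 h2 φ T X hM hX
  refine ⟨hone, ?_, ?_⟩
  · intro z hz
    obtain ⟨U, hU, hzU, htt⟩ := ((h6 φ).1 T hM).2 z hz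
    have h8 := ((h7 φ T hM U hU htt).1 z hzU).1
    rw [hone z (hM.block.1 z hz), hX.zero z hz] at h8
    linarith
  · intro R hR hRT hXR
    obtain ⟨w, hw⟩ := exists_pair φ hR R.rep_nonzero
    have hres := resForm_isRes φ hR hw
    have hHs := (h4 φ 3 hM.hs R.rep w hR hw).1
    obtain ⟨hp1, hp2, hp3, -⟩ := h5 (resForm φ hR hw).toPolar φ.toPolar (perp2 φ R.rep w).subtype R w
      hres X hX.sup
    have hex : ∃ U, φ.toPolar.Gen U ∧ R.rep ∈ U ∧ tf X U = 0 := by
      by_contra hcon
      have hall : ∀ W0, (resForm φ hR hw).toPolar.Gen W0 →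
          1 ≤ tf (pu (perp2 φ R.rep w).subtype R.rep X) W0 := by
        intro W0 hW0
        by_contra hlt
        apply hcon
        refine ⟨IsRes.lift (perp2 φ R.rep w).subtype R.rep W0, hres.lift_gen hW0, ?_, ?_⟩
        · rw [IsRes.mem_lift]
          exact ⟨0, zero_mem _, 1, by simp⟩
        · have h8 := hp2 W0
          rw [hXR, add_zero] at h8
          have h9 := tf_nonneg hX.nonneg (IsRes.lift (perp2 φ R.rep w).subtype R.rep W0)
          omega
      have h8 := ((h3 (resForm φ hR hw) _ hp1 hall).1 hHs).1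
      have h9 := nf_le_sum φ.toPolar hX.nonneg R
      rw [hX.tot] at h9
      rw [hXR, add_zero] at hp3
      omega
    obtain ⟨U, hU, hRU, htf⟩ := hex
    have htt : tt T U = 1 := by
      have h8 := hX.tt U hU
      rw [htf] at h8
      exact_mod_cast h8
    obtain ⟨h8, h9⟩ := (h7 φ T hM U hU htt).1 R hRU
    have h10 := h9 hRT
    rw [hone R hR, hXR] at h8 h10
    omega

end Pool.Agent.Helper47.U4
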